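import Pool.Agent.X159.VVI

/-!
# Symmetric monotone vector variational inequalities with disconnected solution sets

Negative answer to all three parts of Q1, with `n = 2`, `m = 2`. Coordinates `(t, y)`;
`K = {t ≥ 4}` is a half-plane, `φ(t, y) = y² / 2 + (y² - 1)² / t` is convex on `K`, and
`F₁ = ∇(φ - 2 y)`, `F₂ = ∇(φ + 2 y)`. The weak Pareto, the Pareto and the proper Pareto solution
set are all equal to `{(t, y) : t ≥ 4, y = ± 1}`.
-/

set_option autoImplicit false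

namespace Pool.Agent.Results.MP_e5975b_an.SymmetricDisconnected

open Pool.Agent.X159.VVI

/-- `G` is differentiable on an open set containing `K`, with
`∂ G_i / ∂ x_j = ∂ G_j / ∂ x_i` at all points of `K`. -/
def SymmOn {n : ℕ} (K : Set (E n)) (G : E n → E n) : Prop :=
  (∃ U, IsOpen U ∧ K ⊆ U ∧ DifferentiableOn ℝ G U) ∧
  ∀ x ∈ K, ∀ i j, (fderiv ℝ G x (EuclideanSpace.single j 1)) i =
    (fderiv ℝ G x (EuclideanSpace.single i 1)) j

/-- The half-plane. -/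
def K : Set (E 2) := {x | 4 ≤ x 0}

/-- The two maps. -/
noncomputable def F (l : Fin 2) (x : E 2) : E 2 :=
  !₂[-(((x 1) ^ 2 - 1) ^ 2 / (x 0) ^ 2), x 1 + 4 * x 1 * ((x 1) ^ 2 - 1) / x 0 + ![-2, 2] l]

lemma F_apply_zero (l : Fin 2) (x : E 2) : F l x 0 = -(((x 1) ^ 2 - 1) ^ 2 / (x 0) ^ 2) := rfl

lemma F_apply_one (l : Fin 2) (x : E 2) :
    F l x 1 = x 1 + 4 * x 1 * ((x 1) ^ 2 - 1) / x 0 + ![-2, 2] l := rfl

lemma inner_two (a b : E 2) : inner ℝ a b = a 0 * b 0 + a 1 * b 1 := by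
  simp [PiLp.inner_apply, Fin.sum_univ_two]
  ring

lemma K_closed : IsClosed K :=
  isClosed_le continuous_const (show Continuous (fun x : E 2 => x 0) by fun_prop)

lemma K_convex : Convex ℝ K := by
  intro x hx y hy a b ha hb hab
  have hx' : 4 ≤ x 0 := hx
  have hy' : 4 ≤ y 0 := hy
  show 4 ≤ (a • x + b • y) 0
  have : (a • x + b • y) 0 = a * x 0 + b * y 0 := by simp
  rw [this]
  nlinarith

lemma coord_diff (i : Fin 2) : Differentiable ℝ (fun x : E 2 => x i) := by fun_prop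

lemma F_diff (l : Fin 2) {x : E 2} (hx : x 0 ≠ 0) : DifferentiableAt ℝ (F l) x := by
  rw [differentiableAt_euclidean]
  intro i
  have h0 := (coord_diff 0).differentiableAt (x := x)
  have h1 := (coord_diff 1).differentiableAt (x := x)
  fin_cases i
  · show DifferentiableAt ℝ (fun x : E 2 => -(((x 1) ^ 2 - 1) ^ 2 / (x 0) ^ 2)) x
    simp only [div_eq_mul_inv]
    exact ((((h1.fun_pow 2).sub_const 1).fun_pow 2).fun_mul
      ((h0.fun_pow 2).fun_inv (pow_ne_zero 2 hx))).fun_neg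
  · show DifferentiableAt ℝ
      (fun x : E 2 => x 1 + 4 * x 1 * ((x 1) ^ 2 - 1) / x 0 + ![-2, 2] l) x
    simp only [div_eq_mul_inv]
    exact (h1.fun_add (((h1.const_mul 4).fun_mul
      ((h1.fun_pow 2).sub_const 1)).fun_mul (h0.fun_inv hx))).add_const _

lemma fderiv_apply (l : Fin 2) {x : E 2} (hx : x 0 ≠ 0) (v : E 2) (i : Fin 2) :
    (fderiv ℝ (F l) x v) i = lineDeriv ℝ (fun x => F l x i) x v := by
  have h1 := (F_diff l hx).hasFDerivAt
  have h2 : HasFDerivAt (fun x => F l x i)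
      ((EuclideanSpace.proj i : E 2 →L[ℝ] ℝ).comp (fderiv ℝ (F l) x)) x :=
    (EuclideanSpace.proj i : E 2 →L[ℝ] ℝ).hasFDerivAt.comp x h1
  have h3 := h2.hasLineDerivAt v
  rw [h3.lineDeriv]
  rfl

lemma F_symm (l : Fin 2) : SymmOn K (F l) := by
  refine ⟨⟨{x | 0 < x 0}, isOpen_lt continuous_const (show Continuous (fun x : E 2 => x 0) by
    fun_prop), fun x hx => lt_of_lt_of_le (by norm_num) (show 4 ≤ x 0 from hx), fun x hx =>
    (F_diff l (ne_of_gt hx)).differentiableWithinAt⟩, ?_⟩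
  intro x hx
  have hx4 : 4 ≤ x 0 := hx
  have hx0 : x 0 ≠ 0 := by linarith
  have key01 : lineDeriv ℝ (fun x => F l x 0) x (EuclideanSpace.single 1 1) =
      -(4 * x 1 * ((x 1) ^ 2 - 1) / (x 0) ^ 2) := by
    have : HasDerivAt (fun s : ℝ => -(((x 1 + s) ^ 2 - 1) ^ 2 / (x 0) ^ 2))
        (-(4 * x 1 * ((x 1) ^ 2 - 1) / (x 0) ^ 2)) 0 := by
      have h := ((((((hasDerivAt_id (0 : ℝ)).const_add (x 1)).pow 2).sub_const 1).pow 2).div_const
        ((x 0) ^ 2)).neg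
      refine HasDerivAt.congr_deriv h ?_
      simp
      field_simp
      try ring
    rw [lineDeriv]
    refine Eq.trans ?_ this.deriv
    congr 1
    ext s
    simp [F_apply_zero]
  have key10 : lineDeriv ℝ (fun x => F l x 1) x (EuclideanSpace.single 0 1) =
      -(4 * x 1 * ((x 1) ^ 2 - 1) / (x 0) ^ 2) := by
    have : HasDerivAt (fun s : ℝ => x 1 + 4 * x 1 * ((x 1) ^ 2 - 1) / (x 0 + s) + ![-2, 2] l)
        (-(4 * x 1 * ((x 1) ^ 2 - 1) / (x 0) ^ 2)) 0 := by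
      have h := (((hasDerivAt_const (0 : ℝ) (4 * x 1 * ((x 1) ^ 2 - 1))).div
        ((hasDerivAt_id (0 : ℝ)).const_add (x 0)) (by simpa using hx0)).const_add
        (x 1)).add_const (![-2, 2] l)
      refine HasDerivAt.congr_deriv h ?_
      simp
      field_simp
    rw [lineDeriv]
    refine Eq.trans ?_ this.deriv
    congr 1
    ext s
    simp [F_apply_one]
  intro i j
  fin_cases i <;> fin_cases j
  · rfl
  · show (fderiv ℝ (F l) x (EuclideanSpace.single 1 1)) 0 =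
      (fderiv ℝ (F l) x (EuclideanSpace.single 0 1)) 1
    rw [fderiv_apply l hx0, fderiv_apply l hx0, key01, key10]
  · show (fderiv ℝ (F l) x (EuclideanSpace.single 0 1)) 1 =
      (fderiv ℝ (F l) x (EuclideanSpace.single 1 1)) 0
    rw [fderiv_apply l hx0, fderiv_apply l hx0, key01, key10]
  · rfl

lemma F_cont (l : Fin 2) : ContinuousOn (F l) K := fun x hx =>
  (F_diff l (show x 0 ≠ 0 by have : 4 ≤ x 0 := hx; linarith)).continuousAt.continuousWithinAt

/-- the algebraic identity behind the convexity of `φ` -/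
lemma bregman {t s y z : ℝ} (ht : 0 < t) (hs : 0 < s) :
    (-((y ^ 2 - 1) ^ 2 / t ^ 2) - -((z ^ 2 - 1) ^ 2 / s ^ 2)) * (t - s) +
      ((y + 4 * y * (y ^ 2 - 1) / t) - (z + 4 * z * (z ^ 2 - 1) / s)) * (y - z) =
    (y - z) ^ 2 * ((1 / 2 + 2 * (z ^ 2 - 1) / s) + (1 / 2 + 2 * (y ^ 2 - 1) / t)) +
      ((y ^ 2 - 1) - (z ^ 2 - 1) * t / s) ^ 2 / t + ((z ^ 2 - 1) - (y ^ 2 - 1) * s / t) ^ 2 / s := by
  field_simp
  ring

lemma half_nonneg {t y : ℝ} (ht : 4 ≤ t) : 0 ≤ 1 / 2 + 2 * (y ^ 2 - 1) / t := by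
  have h0 : 0 < t := by linarith
  have : 1 / 2 + 2 * (y ^ 2 - 1) / t = (t + 4 * (y ^ 2 - 1)) / (2 * t) := by
    field_simp
    ring
  rw [this]
  apply div_nonneg _ (by positivity)
  nlinarith [sq_nonneg y]

lemma F_mono (l : Fin 2) : MonoOn K (F l) := by
  intro x hx y hy
  have hx4 : 4 ≤ x 0 := hx
  have hy4 : 4 ≤ y 0 := hy
  have hx0 : 0 < x 0 := by linarith
  have hy0 : 0 < y 0 := by linarith
  rw [inner_two]
  simp only [PiLp.sub_apply, F_apply_zero, F_apply_one]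
  have h := bregman (y := y 1) (z := x 1) hy0 hx0
  have h2 : (y 1 + 4 * y 1 * ((y 1) ^ 2 - 1) / y 0 + ![-2, 2] l -
      (x 1 + 4 * x 1 * ((x 1) ^ 2 - 1) / x 0 + ![-2, 2] l)) =
      (y 1 + 4 * y 1 * ((y 1) ^ 2 - 1) / y 0) - (x 1 + 4 * x 1 * ((x 1) ^ 2 - 1) / x 0) := by ring
  rw [h2, h]
  have a1 := half_nonneg (y := x 1) hx4
  have a2 := half_nonneg (y := y 1) hy4
  positivity

lemma pr_sub_sol {n m : ℕ} [NeZero m] (K : Set (E n)) (F : Fin m → E n → E n) :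
    SolPr K F ⊆ Sol K F := by
  rintro x ⟨ξ, hpos, _, hx, hvi⟩
  refine ⟨hx, fun y hy hcon => ?_⟩
  obtain ⟨hall, l, hl⟩ := hcon
  have h := hvi y hy
  simp only [sum_inner, real_inner_smul_left] at h
  have h2 : ∑ l, ξ l * inner ℝ (F l x) (y - x) = - ∑ l, ξ l * inner ℝ (F l x) (x - y) := by
    rw [← Finset.sum_neg_distrib]
    refine Finset.sum_congr rfl fun i _ => ?_
    rw [← neg_sub x y, inner_neg_right]
    ring
  rw [h2] at h
  have h3 : 0 < ∑ l, ξ l * inner ℝ (F l x) (x - y) :=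
    Finset.sum_pos' (fun i _ => mul_nonneg (hpos i).le (hall i))
      ⟨l, Finset.mem_univ _, mul_pos (hpos l) (lt_of_le_of_ne (hall l) (Ne.symm hl))⟩
  linarith

lemma sol_sub_weak {n m : ℕ} [NeZero m] (K : Set (E n)) (F : Fin m → E n → E n) :
    Sol K F ⊆ SolW K F := by
  rintro x ⟨hx, h⟩
  exact ⟨hx, fun y hy hcon => h y hy ⟨fun l => (hcon l).le, 0, (hcon 0).ne'⟩⟩

lemma weak_sub {x : E 2} (hx : x ∈ SolW K F) : (x 1) ^ 2 = 1 := by
  by_contra hne
  obtain ⟨hxK, h⟩ := hx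
  have hx4 : 4 ≤ x 0 := hxK
  refine h !₂[x 0 + 1, x 1] (show 4 ≤ x 0 + 1 by linarith) fun l => ?_
  rw [inner_two]
  simp only [PiLp.sub_apply, F_apply_zero]
  have h0 : 0 < ((x 1) ^ 2 - 1) ^ 2 / (x 0) ^ 2 := by
    have h1 : (x 1) ^ 2 - 1 ≠ 0 := sub_ne_zero.2 hne
    have h2 : 0 < x 0 := by linarith
    positivity
  simp
  linarith

lemma mem_pr {t : ℝ} (ht : 4 ≤ t) {e : ℝ} (he : e ^ 2 = 1) : (!₂[t, e] : E 2) ∈ SolPr K F := by
  have he' : e = 1 ∨ e = -1 := by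
    rcases mul_eq_zero.1 (show (e - 1) * (e + 1) = 0 by ring_nf; linarith) with h | h
    · left; linarith
    · right; linarith
  have ht0 : t ≠ 0 := by linarith
  refine ⟨![(2 + e) / 4, (2 - e) / 4], ?_, ?_, show 4 ≤ t from ht, ?_⟩
  · intro l
    rcases he' with rfl | rfl <;> fin_cases l <;> simp <;> norm_num
  · simp
    ring
  · intro y hy
    rw [inner_two]
    have e0 : (∑ l, (![(2 + e) / 4, (2 - e) / 4] : Fin 2 → ℝ) l • F l !₂[t, e]) 0 = 0 := by
      simp [F_apply_zero, he]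
    have e1 : (∑ l, (![(2 + e) / 4, (2 - e) / 4] : Fin 2 → ℝ) l • F l !₂[t, e]) 1 = 0 := by
      simp [F_apply_one, he]
      ring
    rw [e0, e1]
    simp

/-- There are a nonempty closed convex `K ⊆ ℝ²` and two continuous maps `F₁, F₂` forming a
symmetric monotone problem for which the weak Pareto, the Pareto and the proper Pareto solution set
are all nonempty and disconnected. -/
theorem result : ∃ (K : Set (E 2)) (F : Fin 2 → E 2 → E 2),
    K.Nonempty ∧ IsClosed K ∧ Convex ℝ K ∧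
    (∀ l, ContinuousOn (F l) K) ∧ (∀ l, MonoOn K (F l)) ∧ (∀ l, SymmOn K (F l)) ∧
    ((SolW K F).Nonempty ∧ ¬ IsPreconnected (SolW K F)) ∧
    ((Sol K F).Nonempty ∧ ¬ IsPreconnected (Sol K F)) ∧
    ((SolPr K F).Nonempty ∧ ¬ IsPreconnected (SolPr K F)) := by
  have hp : (!₂[4, 1] : E 2) ∈ SolPr K F := mem_pr le_rfl (by norm_num)
  have hm : (!₂[4, -1] : E 2) ∈ SolPr K F := mem_pr le_rfl (by norm_num)
  have hgen : ∀ S : Set (E 2), SolPr K F ⊆ S → S ⊆ SolW K F → S.Nonempty ∧ ¬ IsPreconnected S := by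
    intro S h1 h2
    refine ⟨⟨_, h1 hp⟩, fun hconn => ?_⟩
    have hc : Continuous (fun x : E 2 => x 1) := by fun_prop
    have him := (hconn.image _ hc.continuousOn).ordConnected
    have a0 : (-1 : ℝ) ∈ (fun x : E 2 => x 1) '' S := ⟨_, h1 hm, by simp⟩
    have a1 : (1 : ℝ) ∈ (fun x : E 2 => x 1) '' S := ⟨_, h1 hp, by simp⟩
    obtain ⟨x, hx, hx0⟩ := him.out a0 a1 (show (0 : ℝ) ∈ Set.Icc (-1) 1 by constructor <;> norm_num)
    have h3 := weak_sub (h2 hx)
    simp only at hx0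
    rw [hx0] at h3
    norm_num at h3
  exact ⟨K, F, ⟨_, hp.choose_spec.2.2.1⟩, K_closed, K_convex, F_cont, F_mono, F_symm,
    hgen _ ((pr_sub_sol K F).trans (sol_sub_weak K F)) le_rfl,
    hgen _ (pr_sub_sol K F) (sol_sub_weak K F),
    hgen _ le_rfl ((pr_sub_sol K F).trans (sol_sub_weak K F))⟩

end Pool.Agent.Results.MP_e5975b_an.SymmetricDisconnected
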